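import Pool.Agent.Helper6.HG.Defs2
import Pool.Agent.Helper19.HG.TK

/-!
# REP: homogeneous polynomials of degree `d` are the functions `X ↦ tr (c · X^(⊗ d))`
-/

set_option autoImplicit false

open NumberField MU MT HD MvPolynomial

namespace HG

section

variable {K₀ : Type} [Field K₀] {n : ℕ}

/-- the polynomial `tr (c · X^(⊗ d))` -/
noncomputable def repPoly (d : ℕ) (c : Matrix (Fin d → Fin n) (Fin d → Fin n) K₀) :
    MvPolynomial (Fin n × Fin n) K₀ :=
  ∑ i, ∑ j, C (c i j) * ∏ k, X (j k, i k)

theorem ev_repPoly (d : ℕ) (c : Matrix (Fin d → Fin n) (Fin d → Fin n) K₀) {K : Type} [Field K]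
    [Algebra K₀ K] (Y : Matrix (Fin n) (Fin n) K) :
    ev Y (repPoly d c) = (c.map (algebraMap K₀ K) * MT.tp d Y).trace := by
  unfold repPoly Matrix.trace
  rw [map_sum]
  refine Finset.sum_congr rfl fun i _ => ?_
  rw [map_sum, Matrix.diag_apply, Matrix.mul_apply]
  refine Finset.sum_congr rfl fun j _ => ?_
  rw [map_mul, ev_C, map_prod, Matrix.map_apply]
  congr 1
  unfold MT.tp
  refine Finset.prod_congr rfl fun k _ => ?_
  rw [ev_X]

theorem der_repPoly (d : ℕ) (c : Matrix (Fin d → Fin n) (Fin d → Fin n) K₀)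
    (A : Matrix (Fin n) (Fin n) K₀) :
    ev (1 : Matrix (Fin n) (Fin n) K₀) (ldv A (repPoly d c)) = (c * dtp d A).trace := by
  unfold repPoly Matrix.trace
  rw [map_sum, map_sum]
  refine Finset.sum_congr rfl fun i _ => ?_
  rw [map_sum, map_sum, Matrix.diag_apply, Matrix.mul_apply]
  refine Finset.sum_congr rfl fun j _ => ?_
  rw [Derivation.leibniz, tk_ldv_C, smul_zero, add_zero, smul_eq_mul, map_mul, ev_C,
    tk_ldv_prod, Algebra.algebraMap_self_apply]

theorem mono_listing (d : ℕ) : ∀ m : (Fin n × Fin n) →₀ ℕ, m.degree = d →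
    ∃ σ : Fin d → Fin n × Fin n, (∏ k, X (σ k)) = (monomial m (1 : K₀)) := by
  induction d with
  | zero =>
    intro m hm
    refine ⟨Fin.elim0, ?_⟩
    have h0 : m = 0 := (Finsupp.degree_eq_zero_iff m).1 hm
    subst h0
    simp
  | succ d ih =>
    intro m hm
    have h0 : m ≠ 0 := by
      intro h
      rw [h, map_zero] at hm
      omega
    obtain ⟨x, hx⟩ := Finsupp.support_nonempty_iff.2 h0
    rw [Finsupp.mem_support_iff] at hx
    have hle : Finsupp.single x 1 ≤ m := by
      rw [Finsupp.single_le_iff]
      omega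
    have hsplit : m = Finsupp.single x 1 + (m - Finsupp.single x 1) :=
      (add_tsub_cancel_of_le hle).symm
    have hdeg : (m - Finsupp.single x 1).degree = d := by
      rw [hsplit, map_add, Finsupp.degree_single] at hm
      omega
    obtain ⟨σ, hσ⟩ := ih _ hdeg
    refine ⟨Fin.cons x σ, ?_⟩
    rw [Fin.prod_univ_succ]
    simp only [Fin.cons_zero, Fin.cons_succ]
    rw [hσ]
    conv_rhs => rw [hsplit]
    rw [X, monomial_mul, one_mul]

end

theorem st_REP : ST_REP := by
  intro K₀ _ n d
  refine ⟨fun c => ⟨repPoly d c, fun K _ _ Y => ev_repPoly d c Y, fun A => ?_⟩, fun f hf => ?_⟩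
  · rw [← ev_one_ldv, der_repPoly]
  · classical
    have hσ : ∀ m : (Fin n × Fin n) →₀ ℕ, ∃ c : Matrix (Fin d → Fin n) (Fin d → Fin n) K₀,
        repPoly d c = monomial m (coeff m f) := by
      intro m
      by_cases hm : coeff m f = 0
      · refine ⟨0, ?_⟩
        rw [hm, monomial_zero]
        unfold repPoly
        simp
      · have hdeg : m.degree = d := by
          have := hf hm
          rwa [Finsupp.degree_eq_weight_one]
        obtain ⟨σ, hσ⟩ := mono_listing (K₀ := K₀) d m hdeg
        refine ⟨Matrix.single (fun k => (σ k).2) (fun k => (σ k).1) (coeff m f), ?_⟩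
        unfold repPoly
        rw [Finset.sum_eq_single (fun k => (σ k).2), Finset.sum_eq_single (fun k => (σ k).1)]
        · rw [Matrix.single_apply_same]
          simp only [Prod.mk.eta]
          rw [hσ, C_mul_monomial, mul_one]
        · intro j _ hj
          rw [Matrix.single_apply_of_ne _ _ _ _ _ (fun h => hj h.2.symm), C_0, zero_mul]
        · intro h
          exact absurd (Finset.mem_univ _) h
        · intro i _ hi
          refine Finset.sum_eq_zero fun j _ => ?_
          rw [Matrix.single_apply_of_ne _ _ _ _ _ (fun h => hi h.1.symm), C_0, zero_mul]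
        · intro h
          exact absurd (Finset.mem_univ _) h
    choose c hc using hσ
    refine ⟨∑ m ∈ f.support, c m, fun K _ _ Y => ?_⟩
    have hsum : repPoly d (∑ m ∈ f.support, c m) = f := by
      have h1 : repPoly d (∑ m ∈ f.support, c m) = ∑ m ∈ f.support, repPoly d (c m) := by
        unfold repPoly
        conv_rhs => rw [Finset.sum_comm]
        refine Finset.sum_congr rfl fun i _ => ?_
        conv_rhs => rw [Finset.sum_comm]
        refine Finset.sum_congr rfl fun j _ => ?_
        rw [Matrix.sum_apply, map_sum, Finset.sum_mul]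
      rw [h1]
      conv_rhs => rw [← support_sum_monomial_coeff f]
      exact Finset.sum_congr rfl fun m _ => hc m
    rw [← ev_repPoly, hsum]

end HG
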